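import Pool.Agent.NUCR.Target
import Pool.Agent.MS.ResScales

/-!
The size exponent `3 / 4` of the self-avoiding walk on the hexagonal lattice at all scales: off a stretched
exponentially small proportion of the `n`-step walks, all the pieces `w_i, ..., w_j` with at least `n ^ ε` steps have the
size `(j - i) ^ (3 / 4)` up to `(j - i) ^ ε`.
-/

set_option autoImplicit false
open scoped Classical

namespace Pool.Agent.HeldEab.AllScales

open Pool.Agent.MS.ResScales

theorem result (ε : ℝ) (hε : 0 < ε) :
    ∃ c : ℝ, 0 < c ∧ ∀ n : ℕ, 1 ≤ n →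
      (((saw n).filter (fun s => ¬ AllScales c ε s)).card : ℝ) ≤
        c⁻¹ * Real.exp (-(n : ℝ) ^ c) * ((saw n).card : ℝ) :=
  result_of NUCR.twoSided ε hε

end Pool.Agent.HeldEab.AllScales
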