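import Pool.Agent.SawF.Fin

/-!
The size exponent of self-avoiding walks on the square and the triangular lattice is the exponent
of the correlation length.

`μ` is the growth constant, `z_c = 1 / μ`, and `ξ(z)`, `0 < z < z_c`, is the correlation length: the
generating function of the self-avoiding walks from `0` to the point `h T i` is
`exp (-h T / ξ(z) + o(T))` at the fugacity `z`. `R n` is the mean square of the end-to-end distance,
`M n` the mean of the square of the maximal distance from the start, of the uniformly random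
`n`-step self-avoiding walk. With `ξ_n = ξ(z_c exp(-1 / n))`, the size of the `n`-step walks is `ξ_n`
up to factors `n ^ ε`: every `n` for the upper bound, some `N` in each window
`[n, n + K n ^ (1 - ε / 20)]` for the lower bound.
-/

set_option autoImplicit false
open scoped Classical
open Filter Topology

namespace Pool.Agent.HeldEab.CorrelationLength

open SawNu SawNu.SB SawNu.SBR SawNu.SF Pool.Agent.Lib.SAW.HW Pool.Agent.SawBr38

theorem vert_sq : CorB.Vert sqC 1 2 where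
  qp := rfl
  ex := ⟨[sqC.up], Brc.upStep, by simp [sqC]⟩

theorem vert_tri : CorB.Vert triC 2 1 where
  qp := rfl
  ex := ⟨[triC.up] ++ [triC.up].map tauH, Brc.upStep.append Brc.upStep.tau, by
    simp [triC, tauH]⟩

noncomputable def datSq {f : ℕ → Fin 4 → ℂ} (hf : ∀ i a, f i a = Complex.I ^ (a : ℕ)) :
    Dat sqC sqL 4 f 1 2 1 where
  hM := mirrored_sq
  hup := fun b => ⟨(0, 1), by simp [sqL], rfl⟩
  hS := fun _ => rfl
  R := sqRot
  vert := vert_sq
  e := encSq
  hnorm := hup_sq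
  hf := fun i a => by rw [hf, sq_enc]
  hf1 := norm_sq_le hf
  hr := by norm_num
  hr1 := le_rfl
  him := fun p => by simp [encSq, phiSq]
  hre := fun p => by simp [encSq, phiSq]

noncomputable def datTri {f : ℕ → Fin 6 → ℂ} (hf : ∀ i a, f i a =
    Complex.exp (2 * (Real.pi : ℂ) * Complex.I * ((a : ℕ) : ℂ) / 6)) :
    Dat triC triL 6 f 2 1 (Real.sqrt 3 / 2) where
  hM := mirrored_tri
  hup := fun b => ⟨(1, 1), by simp [triL], rfl⟩
  hS := fun _ => rfl
  R := triRot
  vert := vert_tri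
  e := encTri
  hnorm := hup_tri
  hf := fun i a => by rw [hf, tri_enc]
  hf1 := norm_tri_le hf
  hr := by
    have : (8 : ℝ) / 5 ≤ Real.sqrt 3 := Real.le_sqrt_of_sq_le (by norm_num)
    linarith
  hr1 := by
    have : Real.sqrt 3 ≤ 2 := Real.sqrt_le_iff.2 ⟨by norm_num, by norm_num⟩
    linarith
  him := fun p => by simp [encTri, phiTri, mul_comm]
  hre := fun p => by simp [encTri, phiTri]

theorem result :
    ∀ (k : ℕ) (f : ℕ → Fin k → ℂ) (h : ℝ),
      ((k = 4 ∧ h = 1 ∧ ∀ i a, f i a = Complex.I ^ (a : ℕ)) ∨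
       (k = 6 ∧ h = Real.sqrt 3 ∧
         ∀ i a, f i a = Complex.exp (2 * (Real.pi : ℂ) * Complex.I * ((a : ℕ) : ℂ) / 6))) →
      ∀ (μ : ℝ) (R M : ℕ → ℝ),
      (μ = ⨅ n : {n : ℕ // 1 ≤ n},
        (((SawNu.saw f n.1).card : ℝ) ^ ((1 : ℝ) / (n.1 : ℝ)))) →
      (∀ n, R n = (∑ s ∈ SawNu.saw f n, ‖SawNu.pos f s n‖ ^ 2) / ((SawNu.saw f n).card : ℝ)) →
      (∀ n, M n = (∑ s ∈ SawNu.saw f n, ⨆ j : Fin (n + 1), ‖SawNu.pos f s j‖ ^ 2) /
        ((SawNu.saw f n).card : ℝ)) →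
      ∃ ξ : ℝ → ℝ,
        (∀ z : ℝ, 0 < z → z < 1 / μ → 0 < ξ z ∧
          Tendsto (fun T : ℕ => Real.log (∑' n : ℕ, (((SawNu.saw f n).filter
            (fun s => SawNu.pos f s n = ((h * T : ℝ) : ℂ) * Complex.I)).card : ℝ) * z ^ n) /
              (h * T)) atTop (𝓝 (-(1 / ξ z))) ∧
          Tendsto (fun n : ℕ => Real.log ((∑ s ∈ SawNu.saw f n,
            Real.exp ((SawNu.pos f s n).im / ξ z)) / ((SawNu.saw f n).card : ℝ)) / n)
            atTop (𝓝 (-Real.log (μ * z)))) ∧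
        (∀ ε : ℝ, 0 < ε → ε ≤ 1 → ∃ K : ℝ, 1 ≤ K ∧ ∃ n₀ : ℕ, ∀ n : ℕ, n₀ ≤ n →
          (∀ x : ℝ, 0 ≤ x →
            (((SawNu.saw f n).filter
                (fun s => ∃ j : Fin (n + 1), x ≤ ‖SawNu.pos f s j‖)).card : ℝ) ≤
              K * Real.exp ((n : ℝ) ^ ε - x / (5 * ξ (Real.exp (-1 / n) / μ))) *
                ((SawNu.saw f n).card : ℝ)) ∧
          M n ≤ K * (n : ℝ) ^ ε * ξ (Real.exp (-1 / n) / μ) ^ 2 ∧
          ∃ N : ℕ, n ≤ N ∧ (N : ℝ) ≤ n + K * (n : ℝ) ^ (1 - ε / 20) ∧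
            ξ (Real.exp (-1 / n) / μ) ^ 2 ≤ K * (n : ℝ) ^ ε * R N) ∧
        limsup (fun n : ℕ => Real.log (R n) / Real.log n) atTop =
          2 * limsup (fun z => Real.log (ξ z) / Real.log (1 / (1 / μ - z))) (𝓝[<] (1 / μ)) ∧
        limsup (fun n : ℕ => Real.log (M n) / Real.log n) atTop =
          2 * limsup (fun z => Real.log (ξ z) / Real.log (1 / (1 / μ - z))) (𝓝[<] (1 / μ)) ∧
        (∀ ν : ℝ, Tendsto (fun n : ℕ => Real.log (R n) / Real.log n) atTop (𝓝 (2 * ν)) ∨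
            Tendsto (fun n : ℕ => Real.log (M n) / Real.log n) atTop (𝓝 (2 * ν)) →
          Tendsto (fun z => Real.log (ξ z) / Real.log (1 / (1 / μ - z))) (𝓝[<] (1 / μ))
            (𝓝 ν)) := by
  intro k f h hk μ R M hμ hR hM
  rcases hk with ⟨rfl, rfl, hf⟩ | ⟨rfl, rfl, hf⟩
  · have d := datSq hf
    have h1 := mu_eq d.hM d.hup d.hS (fun n => (SawNu.saw f n).card) (FinAux.card_saw d) μ hμ
    have h2 := SawNu.SF.main d h1 hR hM
    simp only [Nat.cast_one, one_mul] at h2 ⊢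
    exact h2
  · have d := datTri hf
    have h1 := mu_eq d.hM d.hup d.hS (fun n => (SawNu.saw f n).card) (FinAux.card_saw d) μ hμ
    have h2 := SawNu.SF.main d h1 hR hM
    have h3 : ((2 : ℕ) : ℝ) * (Real.sqrt 3 / 2) = Real.sqrt 3 := by
      push_cast
      ring
    simp only [h3] at h2
    exact h2

end Pool.Agent.HeldEab.CorrelationLength
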