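import Pool.Agent.ARM.LawF

/-!
The complete law of the end point of the uniformly random `n`-step self-avoiding walk on the hexagonal lattice, up to
constants: for every `n`, at every point, on both sides; jointly with the tail of the largest distance from the starting
point; and the number of the self-avoiding polygons.
-/

set_option autoImplicit false

open scoped Classical

namespace Pool.Agent.HeldEab.EndPoint

/-- The step number `i` (starting with `0`) in the direction `a`: the edges of the hexagonal lattice with unit steps. -/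
noncomputable def step (i : ℕ) (a : Fin 3) : ℂ :=
  (-1 : ℂ) ^ i * Complex.exp (2 * (Real.pi : ℂ) * Complex.I * ((a : ℕ) : ℂ) / 3)

/-- The position after `k` steps of the path with the directions `s`. -/
noncomputable def pos {n : ℕ} (s : Fin n → Fin 3) (k : ℕ) : ℂ :=
  ∑ i ∈ Finset.univ.filter (fun i : Fin n => (i : ℕ) < k), step (i : ℕ) (s i)

/-- The self-avoiding walks with `n` steps. -/
noncomputable def saw (n : ℕ) : Finset (Fin n → Fin 3) :=
  Finset.univ.filter (fun s => ∀ j k : ℕ, j ≤ n → k ≤ n → pos s j = pos s k → j = k)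

/-- The probability of `P` for the uniformly random self-avoiding walk with `n` steps. -/
noncomputable def prob (n : ℕ) (P : (Fin n → Fin 3) → Prop) : ℝ := (((saw n).filter P).card : ℝ) / ((saw n).card : ℝ)

/-- The self-avoiding walks with `n` steps that end at a neighbour of their first site: for `n ≥ 2` they are the polygons
with the sites `w_0, ..., w_n` (with a starting site and a direction). -/
noncomputable def pol (n : ℕ) : Finset (Fin n → Fin 3) := (saw n).filter (fun s => ‖pos s n‖ = 1)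

theorem saw_eq (n : ℕ) : saw n = _root_.MS.SW step n := by
  ext s
  rw [_root_.MS.mem_SW]
  unfold saw
  rw [Finset.mem_filter]
  exact ⟨fun h => h.2, fun h => ⟨Finset.mem_univ _, h⟩⟩

theorem pol_eq (n : ℕ) : pol n = _root_.PGX.Pol step n := by
  ext s
  unfold pol _root_.PGX.Pol
  rw [Finset.mem_filter, Finset.mem_filter, saw_eq]
  exact Iff.rfl

theorem result :
    ∃ c C : ℝ, 0 < c ∧ 0 < C ∧
      (∀ n : ℕ, 1 ≤ n → ∀ z : ℂ,
        (∀ L : ℝ, 0 ≤ L → prob n (fun s => pos s n = z ∧ ∃ j, j ≤ n ∧ L * (n : ℝ) ^ (3 / 4 : ℝ) ≤ ‖pos s j‖) ≤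
          C * (n : ℝ) ^ (-(3 / 2) : ℝ) * Real.exp (-(c * L ^ 4))) ∧
        (z ≠ 0 → prob n (fun s => pos s n = z) ≤ C * (n : ℝ) ^ (-(3 / 2) : ℝ) *
          (‖z‖ / (n : ℝ) ^ (3 / 4 : ℝ)) ^ (11 / 24 : ℝ) * Real.exp (-(c * (‖z‖ / (n : ℝ) ^ (3 / 4 : ℝ)) ^ 4))) ∧
        (((∃ s ∈ saw n, pos s n = z) ∨ (8 ≤ n ∧ z ≠ 0 ∧ ∃ s : Fin n → Fin 3, pos s n = z)) →
          c * (n : ℝ) ^ (-(3 / 2) : ℝ) * (‖z‖ / (n : ℝ) ^ (3 / 4 : ℝ)) ^ (11 / 24 : ℝ) *
            Real.exp (-(C * (‖z‖ / (n : ℝ) ^ (3 / 4 : ℝ)) ^ 4)) ≤ prob n (fun s => pos s n = z))) ∧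
      ∀ n : ℕ, 9 ≤ n → ¬ Even n →
        (c * (n : ℝ) ^ (-(3 / 2) : ℝ) * Real.sqrt (2 + Real.sqrt 2) ^ n ≤ ((pol n).card : ℝ) ∧
          ((pol n).card : ℝ) ≤ C * (n : ℝ) ^ (-(3 / 2) : ℝ) * Real.sqrt (2 + Real.sqrt 2) ^ n) := by
  obtain ⟨c, C, hc, hC, h1, h2⟩ := NTSZ.Loc.law_pol HexObs.ARM.lowPt HexObs.ARM.lowSm
  refine ⟨c, C, hc, hC, h1, fun n hn ho => ?_⟩
  have h3 := h2 step (fun i a => rfl) n hn ho
  rw [pol_eq]
  exact h3

end Pool.Agent.HeldEab.EndPoint
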